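import Pool.Agent.Q120.SI.Stm

set_option autoImplicit false

/-! # Project SI (helper120), job CEL: many bad cells (helper38) -/

namespace Pool.Agent.Q38.SI

open Finset MeasureTheory Filter Pool.Agent.Q120.ET Pool.Agent.Q120.GM Pool.Agent.Q120.GE Pool.Agent.Q120.RZ
open Pool.Agent.Q120.SI

/-- events which depend on the elements in a finite set -/
theorem F_dep {Ω : Type} {A : Ω → Set ℕ} (C : Finset ℕ) (P : Set ℕ → Prop)
    (hP : ∀ S S' : Set ℕ, (∀ n ∈ C, n ∈ S ↔ n ∈ S') → (P S ↔ P S')) :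
    MeasurableSet[F A (↑C : Set ℕ)] {ω | P (A ω)} := by
  classical
  have h : {ω | P (A ω)} = ⋃ T ∈ C.powerset.filter (fun T : Finset ℕ => P ↑T),
      ((⋂ n ∈ T, {ω | n ∈ A ω}) ∩ ⋂ n ∈ C \ T, {ω | n ∈ A ω}ᶜ) := by
    ext ω
    simp only [Set.mem_ofPred_eq, Set.mem_iUnion, Set.mem_inter_iff, Set.mem_iInter,
      Set.mem_compl_iff, Finset.mem_filter, Finset.mem_powerset, exists_prop, Finset.mem_sdiff]
    constructor
    · intro h
      refine ⟨C.filter (fun n => n ∈ A ω), ⟨Finset.filter_subset _ _, ?_⟩, ?_, ?_⟩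
      · refine (hP _ _ fun n hn => ?_).2 h
        simp [hn]
      · intro n hn
        exact (Finset.mem_filter.1 hn).2
      · rintro n ⟨hn, hn2⟩ h3
        exact hn2 (Finset.mem_filter.2 ⟨hn, h3⟩)
    · rintro ⟨T, ⟨hT, hPT⟩, h1, h2⟩
      refine (hP _ _ fun n hn => ?_).1 hPT
      rw [Finset.mem_coe]
      constructor
      · exact h1 n
      · intro h3
        by_contra h4
        exact h2 n ⟨hn, h4⟩ h3
  rw [h]
  refine Finset.measurableSet_biUnion _ fun T hT => ?_
  have hTC : T ⊆ C := Finset.mem_powerset.1 (Finset.mem_filter.1 hT).1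
  refine MeasurableSet.inter (Finset.measurableSet_biInter _ fun n hn => ?_)
    (Finset.measurableSet_biInter _ fun n hn => ?_)
  · exact F_mem (Finset.mem_coe.2 (hTC hn))
  · exact MeasurableSet.compl (F_mem (Finset.mem_coe.2 (Finset.mem_sdiff.1 hn).1))

theorem badc_dep (C : Finset ℕ) (k g : ℕ) (κ : ℝ) (S S' : Set ℕ) (h : ∀ n ∈ C, n ∈ S ↔ n ∈ S') :
    (κ * g / k < |(num' S C : ℝ) - ∑ n ∈ C, pc n| ↔
      κ * g / k < |(num' S' C : ℝ) - ∑ n ∈ C, pc n|) := by
  classical
  have e : num' S C = num' S' C := by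
    unfold num'
    congr 1
    exact Finset.filter_congr fun n hn => h n hn
  rw [e]

theorem cell_card (k g j : ℕ) : (cell k g j).card ≤ g := by
  unfold cell
  rw [Nat.card_Ico]
  have h1 : min (2 ^ k + (j + 1) * g) (2 ^ (k + 1)) ≤ 2 ^ k + (j + 1) * g := min_le_left _ _
  have h2 : (j + 1) * g = j * g + g := by ring
  omega

theorem cell_disj (k g : ℕ) {i j : ℕ} (h : i ≠ j) :
    Disjoint (↑(cell k g i) : Set ℕ) (↑(cell k g j) : Set ℕ) := by
  have key : ∀ i j : ℕ, i < j → Disjoint (↑(cell k g i) : Set ℕ) (↑(cell k g j) : Set ℕ) := by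
    intro i j hij
    rw [Set.disjoint_left]
    intro n hn hn'
    rw [Finset.mem_coe, cell, Finset.mem_Ico] at hn hn'
    have h1 : (i + 1) * g ≤ j * g := Nat.mul_le_mul_right g hij
    have h2 := hn.2.trans_le (min_le_left _ _)
    omega
  rcases lt_or_gt_of_ne h with h | h
  · exact key i j h
  · exact (key j i h).symm

theorem pc_le {k n : ℕ} (hk : 2 ≤ k) (hn : 2 ^ k ≤ n) : pc n ≤ 2 / k := by
  unfold pc
  have hk0 : (0 : ℝ) < k := by
    have : 0 < k := by omega
    exact_mod_cast this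
  split_ifs with h
  · have h1 : (k : ℝ) * Real.log 2 ≤ Real.log n := by
      rw [← Real.log_pow]
      refine Real.log_le_log (by positivity) ?_
      exact_mod_cast hn
    have h2 : (1 : ℝ) / 2 ≤ Real.log 2 := by
      have := Real.log_two_gt_d9
      linarith
    have h3 : (k : ℝ) / 2 ≤ Real.log n := by nlinarith
    rw [div_le_div_iff₀ (by linarith [half_pos hk0]) hk0]
    linarith
  · positivity

/-- one cell -/
theorem one_cell (hT : J_TAIL) {k g : ℕ} {κ : ℝ} (hk : 2 ≤ k) (hg : 1 ≤ g) (h0 : 0 < κ) (h1 : κ ≤ 1)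
    {Ω : Type} [MeasurableSpace Ω] (μ : Measure Ω) [IsProbabilityMeasure μ] (A : Ω → Set ℕ)
    (hA : IsModel μ pc A) (j : ℕ) :
    μ.real {ω | Badc (A ω) k g κ j} ≤ 2 * Real.exp (-(κ ^ 2 * g / (12 * k))) := by
  have hk0 : (0 : ℝ) < k := by
    have : 0 < k := by omega
    exact_mod_cast this
  have hg0 : (0 : ℝ) < g := by exact_mod_cast hg
  have hsum : ∑ n ∈ cell k g j, pc n ≤ 2 * g / k := by
    calc ∑ n ∈ cell k g j, pc n ≤ ∑ _n ∈ cell k g j, (2 : ℝ) / k := by
          refine Finset.sum_le_sum fun n hn => pc_le hk ?_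
          rw [cell, Finset.mem_Ico] at hn
          omega
      _ = (cell k g j).card * ((2 : ℝ) / k) := by rw [Finset.sum_const, nsmul_eq_mul]
      _ ≤ g * ((2 : ℝ) / k) := by
          refine mul_le_mul_of_nonneg_right ?_ (by positivity)
          exact_mod_cast cell_card k g j
      _ = 2 * g / k := by ring
  have h := hT Ω μ pc A hA (cell k g j) (2 * g / k) (κ * g / k) hsum (by positivity)
  refine (measureReal_mono (fun ω hω => ?_)).trans (h.trans ?_)
  · have h3 : κ * g / k < |(num' (A ω) (cell k g j) : ℝ) - ∑ n ∈ cell k g j, pc n| := hω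
    exact h3.le
  · refine mul_le_mul_of_nonneg_left (Real.exp_le_exp.2 (neg_le_neg ?_)) (by norm_num)
    rw [div_le_div_iff₀ (by positivity) (by positivity)]
    have e1 : 4 * (2 * (g : ℝ) / k + κ * g / k) = 4 * (2 + κ) * g / k := by ring
    have e2 : (κ * (g : ℝ) / k) ^ 2 * (12 * k) = κ ^ 2 * g * (12 * g / k) := by
      field_simp
    rw [e1, e2]
    refine mul_le_mul_of_nonneg_left ?_ (by positivity)
    refine div_le_div_of_nonneg_right ?_ hk0.le
    nlinarith

theorem t_CEL : J_CEL := by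
  classical
  intro hT k g m κ hk h0 h1 hkg hm Ω _ μ _ A hA
  have hk0 : (0 : ℝ) < k := by
    have : 0 < k := by omega
    exact_mod_cast this
  have hg : 1 ≤ g := by
    by_contra h
    have : g = 0 := by omega
    rw [this] at hkg
    simp only [Nat.cast_zero, mul_zero] at hkg
    have : (0 : ℝ) < 24 * k * (k + 1) := by positivity
    linarith
  obtain ⟨b, hb⟩ : ∃ b : ℝ, b = 2 * Real.exp (-(κ ^ 2 * g / (12 * k))) := ⟨_, rfl⟩
  have hb0 : 0 ≤ b := by rw [hb]; positivity
  have hone : ∀ j, μ.real {ω | Badc (A ω) k g κ j} ≤ b := fun j => by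
    rw [hb]
    exact one_cell hT hk hg h0 h1 μ A hA j
  have hmany : ∀ J ∈ powersetCard m (range (2 ^ k)),
      μ.real (⋂ j ∈ J, {ω | Badc (A ω) k g κ j}) ≤ b ^ m := by
    intro J hJ
    rw [indep_many hA J (fun j => (↑(cell k g j) : Set ℕ)) (fun i _ j _ hij => cell_disj k g hij)
      (fun j => {ω | Badc (A ω) k g κ j}) (fun j _ => F_dep (cell k g j)
        (fun S => Badc S k g κ j) (fun S S' h => badc_dep (cell k g j) k g κ S S' h))]
    calc ∏ j ∈ J, μ.real {ω | Badc (A ω) k g κ j} ≤ ∏ _j ∈ J, b :=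
          Finset.prod_le_prod (fun j _ => measureReal_nonneg) (fun j _ => hone j)
      _ = b ^ m := by rw [Finset.prod_const, (Finset.mem_powersetCard.1 hJ).2]
  have hsub : {ω | m ≤ nbad (A ω) k g κ} ⊆
      ⋃ J ∈ powersetCard m (range (2 ^ k)), ⋂ j ∈ J, {ω | Badc (A ω) k g κ j} := by
    intro ω hω
    rw [Set.mem_ofPred_eq, nbad] at hω
    obtain ⟨J, hJ, hJm⟩ := Finset.exists_subset_card_eq hω
    rw [Set.mem_iUnion₂]
    refine ⟨J, Finset.mem_powersetCard.2 ⟨hJ.trans (Finset.filter_subset _ _), hJm⟩, ?_⟩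
    rw [Set.mem_iInter₂]
    intro j hj
    exact (Finset.mem_filter.1 (hJ hj)).2
  have h2 : μ.real {ω | m ≤ nbad (A ω) k g κ} ≤ ((2 : ℝ) ^ k) ^ m * b ^ m := by
    calc μ.real {ω | m ≤ nbad (A ω) k g κ}
        ≤ μ.real (⋃ J ∈ powersetCard m (range (2 ^ k)), ⋂ j ∈ J, {ω | Badc (A ω) k g κ j}) :=
          measureReal_mono hsub (measure_ne_top _ _)
      _ ≤ ∑ J ∈ powersetCard m (range (2 ^ k)), μ.real (⋂ j ∈ J, {ω | Badc (A ω) k g κ j}) :=
          measureReal_biUnion_finset_le _ _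
      _ ≤ ∑ _J ∈ powersetCard m (range (2 ^ k)), b ^ m := Finset.sum_le_sum hmany
      _ = ((2 ^ k).choose m : ℝ) * b ^ m := by
          rw [Finset.sum_const, Finset.card_powersetCard, Finset.card_range, nsmul_eq_mul]
      _ ≤ ((2 : ℝ) ^ k) ^ m * b ^ m := by
          refine mul_le_mul_of_nonneg_right ?_ (by positivity)
          have := Nat.choose_le_pow (2 ^ k) m
          exact_mod_cast this
  have h3 : (2 : ℝ) ^ k * b ≤ Real.exp (-(κ ^ 2 * g / (24 * k))) := by
    have e1 : (2 : ℝ) ^ (k + 1) ≤ Real.exp (k + 1) := by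
      have e2 : (2 : ℝ) ≤ Real.exp 1 := by
        have := Real.add_one_le_exp (1 : ℝ)
        linarith
      calc (2 : ℝ) ^ (k + 1) ≤ (Real.exp 1) ^ (k + 1) := pow_le_pow_left₀ (by norm_num) e2 _
        _ = Real.exp (k + 1) := by
            rw [← Real.exp_nat_mul]
            push_cast
            rw [mul_one]
    have e3 : (k : ℝ) + 1 ≤ κ ^ 2 * g / (24 * k) := by
      rw [le_div_iff₀ (by positivity)]
      linarith
    calc (2 : ℝ) ^ k * b = (2 : ℝ) ^ (k + 1) * Real.exp (-(κ ^ 2 * g / (12 * k))) := by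
          rw [hb, pow_succ]
          ring
      _ ≤ Real.exp (κ ^ 2 * g / (24 * k)) * Real.exp (-(κ ^ 2 * g / (12 * k))) :=
          mul_le_mul_of_nonneg_right (e1.trans (Real.exp_le_exp.2 e3)) (Real.exp_pos _).le
      _ = Real.exp (-(κ ^ 2 * g / (24 * k))) := by
          rw [← Real.exp_add]
          congr 1
          field_simp
          ring
  calc μ.real {ω | m ≤ nbad (A ω) k g κ} ≤ ((2 : ℝ) ^ k) ^ m * b ^ m := h2
    _ = ((2 : ℝ) ^ k * b) ^ m := by rw [mul_pow]
    _ ≤ (Real.exp (-(κ ^ 2 * g / (24 * k)))) ^ m := pow_le_pow_left₀ (by positivity) h3 m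
    _ = Real.exp (-(κ ^ 2 * g * m / (24 * k))) := by
        rw [← Real.exp_nat_mul]
        congr 1
        ring

end Pool.Agent.Q38.SI
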